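import Pool.Agent.Lib.H29P.Main

/-!
# Hénon maps: the set of periodic points is closed if and only if it is finite

`henon a b` is the Hénon map `(x, y) ↦ (a - x ^ 2 - b y, x)`, and `Function.periodicPts` (Mathlib) is the set of all points
`z` with `f^[n] z = z` for some `n > 0`.
-/

namespace Pool.Agent.Results.MP_a4e28a_an.ClosedIffFinite

open Pool.Agent.Lib.H29P

/-- Let `a`, `b` be real, `b ≠ 0`, `|b| ≠ 1`. The set of periodic points of the Hénon map `H_{a,b}` is closed in `ℝ²` if and
only if it is finite, and this holds if and only if the periods are bounded: there is an `N` such that every periodic point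
is fixed by `H^n` for some `n` with `1 ≤ n ≤ N`. -/
theorem result (a b : ℝ) (hb : b ≠ 0) (hb1 : |b| ≠ 1) :
    (IsClosed (Function.periodicPts (henon a b)) ↔ (Function.periodicPts (henon a b)).Finite) ∧
    (IsClosed (Function.periodicPts (henon a b)) ↔
      ∃ N : ℕ, ∀ z ∈ Function.periodicPts (henon a b), ∃ n : ℕ, 1 ≤ n ∧ n ≤ N ∧ (henon a b)^[n] z = z) := by
  refine ⟨closed_iff_finite a b hb hb1, ?_⟩
  rw [closed_iff_finite a b hb hb1]
  constructor
  · intro hfin
    classical
    -- the maximum of the minimal periods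
    obtain ⟨N, hN⟩ := (hfin.image (Function.minimalPeriod (henon a b))).bddAbove
    refine ⟨N, fun z hz => ⟨Function.minimalPeriod (henon a b) z, ?_, hN ⟨z, hz, rfl⟩, ?_⟩⟩
    · exact Function.minimalPeriod_pos_of_mem_periodicPts hz
    · exact Function.isPeriodicPt_minimalPeriod (henon a b) z
  · rintro ⟨N, hN⟩
    refine Set.Finite.subset ((Set.finite_Icc 1 N).biUnion fun n hn =>
      finite_fix a b n (Set.mem_Icc.1 hn).1) fun z hz => ?_
    obtain ⟨n, h1, h2, h3⟩ := hN z hz
    exact Set.mem_biUnion (Set.mem_Icc.2 ⟨h1, h2⟩) h3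

end Pool.Agent.Results.MP_a4e28a_an.ClosedIffFinite
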