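import Mathlib

/-!
# Hénon maps with a closed set of periodic points (MP_a4e28a_an)

If the set `P` of the periodic points of the Hénon map `H_{a,b}` is closed, then every hyperbolic periodic point is an
isolated point of `P`; hence `P` is finite or some non-hyperbolic periodic point is a limit of other periodic points.

Proof. If the derivative `L` of `f^k` at the hyperbolic point `z` has no eigenvalue of modulus one, there is a quadratic
form `Q` with `Q(L v) > Q(v)` for `v ≠ 0` (explicit, `core`, `exists_quad`), so `Q(w - z)` increases strictly along the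
orbits of `f^k` near `z` (`lyap`) and no other periodic orbit stays near `z` (`orbit_eq`). If periodic points converge
to `z`, their orbits leave a ball around `z`; the exit points accumulate at a point of the compact set `P` whose whole
orbit stays in the ball, which is impossible (`not_accPt`). The last clause follows as `P` is bounded (`bounded`).
-/

set_option autoImplicit false

open Set Filter Topology

namespace Pool.Agent.Results.MP_a4e28a_an.HyperbolicIsolated

/-- The Hénon map `H_{a,b}(x, y) = (a - x² - b y, x)`. -/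
def henon (a b : ℝ) (z : ℝ × ℝ) : ℝ × ℝ := (a - z.1 ^ 2 - b * z.2, z.1)

/-- The set of the periodic points of `f`. -/
def P (f : ℝ × ℝ → ℝ × ℝ) : Set (ℝ × ℝ) := {z | ∃ k : ℕ, 1 ≤ k ∧ f^[k] z = z}

/-- The quadratic form with the coefficients `α`, `β`, `γ`. -/
def quad (α β γ : ℝ) (v : ℝ × ℝ) : ℝ := α * v.1 ^ 2 + β * (v.1 * v.2) + γ * v.2 ^ 2

/-- The trace of the matrix of the linear map `L`. -/
def tr (L : ℝ × ℝ →L[ℝ] ℝ × ℝ) : ℝ := (L (1, 0)).1 + (L (0, 1)).2

/-- The determinant of the matrix of the linear map `L`. -/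
def dt (L : ℝ × ℝ →L[ℝ] ℝ × ℝ) : ℝ := (L (1, 0)).1 * (L (0, 1)).2 - (L (1, 0)).2 * (L (0, 1)).1

/-- The point `z` is a hyperbolic periodic point of `f`: for some `k ≥ 1`, `f^k(z) = z` and the derivative `L` of
`f^k` at `z` has no complex eigenvalue `w` with `|w| = 1`, i.e. no such `w` is a root of the characteristic
polynomial `w ^ 2 - (tr L) w + det L`. -/
def Hyperbolic (f : ℝ × ℝ → ℝ × ℝ) (z : ℝ × ℝ) : Prop :=
  ∃ k : ℕ, 1 ≤ k ∧ f^[k] z = z ∧ ∀ w : ℂ, ‖w‖ = 1 →
    w ^ 2 - (tr (fderiv ℝ f^[k] z) : ℂ) * w + (dt (fderiv ℝ f^[k] z) : ℂ) ≠ 0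

/-- A consequence of hyperbolicity which is used in the proof: a quadratic form `Q` with `Q(L v) > Q(v)` for all
`v ≠ 0`. -/
def QuadHyp (f : ℝ × ℝ → ℝ × ℝ) (z : ℝ × ℝ) : Prop :=
  ∃ k : ℕ, 1 ≤ k ∧ f^[k] z = z ∧ ∃ α β γ : ℝ, ∀ v : ℝ × ℝ, v ≠ 0 →
    quad α β γ v < quad α β γ (fderiv ℝ f^[k] z v)

/-- The explicit quadratic form for a companion matrix. -/
theorem core (T D : ℝ) (h1 : 1 - T + D ≠ 0) (h2 : 1 + T + D ≠ 0) (h3 : D = 1 → 4 < T ^ 2) :
    ∃ A B C : ℝ, ∀ x y : ℝ, (x ≠ 0 ∨ y ≠ 0) →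
      A * x ^ 2 + B * (x * y) + C * y ^ 2 <
        A * y ^ 2 + B * (y * (T * y - D * x)) + C * (T * y - D * x) ^ 2 := by
  have hpos : ∀ x y : ℝ, (x ≠ 0 ∨ y ≠ 0) → 0 < x ^ 2 + y ^ 2 := by
    rintro x y (h | h)
    · have := pow_pos (abs_pos.2 h) 2; rw [sq_abs] at this; nlinarith [sq_nonneg y]
    · have := pow_pos (abs_pos.2 h) 2; rw [sq_abs] at this; nlinarith [sq_nonneg x]
  by_cases hD1 : D = 1
  · have h4 := h3 hD1
    subst hD1
    refine ⟨-T ^ 2, 2 * T, 0, fun x y hxy => ?_⟩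
    have h5 := hpos x y hxy
    have h6 : 0 < T ^ 2 * x ^ 2 - 4 * (T * (x * y)) + T ^ 2 * y ^ 2 := by
      have h7 : 0 ≤ (T * x - 2 * y) ^ 2 := sq_nonneg _
      have h8 : 0 ≤ (T * y - 2 * x) ^ 2 := sq_nonneg _
      nlinarith
    nlinarith
  by_cases hD2 : D = -1
  · subst hD2
    have hT : T ≠ 0 := fun h => h1 (by rw [h]; ring)
    refine ⟨-1, 2 / T, 0, fun x y hxy => ?_⟩
    have h5 := hpos x y hxy
    have h6 : 2 / T * (y * (T * y - -1 * x)) = 2 * y ^ 2 + 2 / T * (x * y) := by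
      field_simp
      ring
    rw [h6]
    nlinarith
  · have hD3 : 1 + D ≠ 0 := fun h => hD2 (by linarith)
    have hD4 : 1 - D ≠ 0 := fun h => hD1 (by linarith)
    set κ : ℝ := (1 - D) / (1 + D) * (T ^ 2 - (1 + D) ^ 2) with hκ
    have hκ0 : κ ≠ 0 := by
      rw [hκ]
      refine mul_ne_zero (div_ne_zero hD4 hD3) ?_
      have : T ^ 2 - (1 + D) ^ 2 = -((1 - T + D) * (1 + T + D)) := by ring
      rw [this]
      exact neg_ne_zero.2 (mul_ne_zero h1 h2)
    refine ⟨2 / κ * D ^ 2 - 1, -2 * (2 / κ) * T * D / (1 + D), 2 / κ, fun x y hxy => ?_⟩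
    have h5 := hpos x y hxy
    have hc : 2 / κ * κ = 2 := div_mul_cancel₀ _ hκ0
    have hid : ((2 / κ * D ^ 2 - 1) * y ^ 2 + -2 * (2 / κ) * T * D / (1 + D) * (y * (T * y - D * x)) +
        2 / κ * (T * y - D * x) ^ 2) - ((2 / κ * D ^ 2 - 1) * x ^ 2 +
        -2 * (2 / κ) * T * D / (1 + D) * (x * y) + 2 / κ * y ^ 2) =
        x ^ 2 - y ^ 2 + (2 / κ * κ) * y ^ 2 := by
      generalize 2 / κ = c
      rw [hκ]
      field_simp
      ring
    rw [hc] at hid
    linarith

theorem exists_quad (L : ℝ × ℝ →L[ℝ] ℝ × ℝ)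
    (h : ∀ w : ℂ, ‖w‖ = 1 → w ^ 2 - (tr L : ℂ) * w + (dt L : ℂ) ≠ 0) :
    ∃ α β γ : ℝ, ∀ v : ℝ × ℝ, v ≠ 0 → quad α β γ v < quad α β γ (L v) := by
  set p := (L (1, 0)).1 with hp
  set r := (L (1, 0)).2 with hr
  set q := (L (0, 1)).1 with hq
  set s := (L (0, 1)).2 with hs
  have hL : ∀ v : ℝ × ℝ, L v = (p * v.1 + q * v.2, r * v.1 + s * v.2) := by
    intro v
    have h1 : v = v.1 • ((1 : ℝ), (0 : ℝ)) + v.2 • ((0 : ℝ), (1 : ℝ)) := by
      ext <;> simp
    have h2 : L v = v.1 • L (1, 0) + v.2 • L (0, 1) := by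
      conv_lhs => rw [h1, map_add, map_smul, map_smul]
    rw [h2]
    ext
    · simp only [Prod.fst_add, Prod.smul_fst, smul_eq_mul]; rw [← hp, ← hq]; ring
    · simp only [Prod.snd_add, Prod.smul_snd, smul_eq_mul]; rw [← hr, ← hs]; ring
  have hT : tr L = p + s := rfl
  have hD : dt L = p * s - r * q := rfl
  set T := tr L with hTdef
  set D := dt L with hDdef
  have h1 : 1 - T + D ≠ 0 := by
    intro h0
    refine h 1 (by simp) ?_
    have : ((1 - T + D : ℝ) : ℂ) = 0 := by rw [h0]; simp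
    push_cast at this
    linear_combination this
  have h2 : 1 + T + D ≠ 0 := by
    intro h0
    refine h (-1) (by simp) ?_
    have : ((1 + T + D : ℝ) : ℂ) = 0 := by rw [h0]; simp
    push_cast at this
    linear_combination this
  have h3 : D = 1 → 4 < T ^ 2 := by
    intro hD1
    by_contra hcon
    push Not at hcon
    set t : ℝ := Real.sqrt (4 - T ^ 2) with ht
    have ht2 : t ^ 2 = 4 - T ^ 2 := Real.sq_sqrt (by linarith)
    refine h (⟨T / 2, t / 2⟩ : ℂ) ?_ ?_
    · have h4 : ‖(⟨T / 2, t / 2⟩ : ℂ)‖ ^ 2 = 1 := by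
        rw [← Complex.normSq_eq_norm_sq, Complex.normSq_mk]
        nlinarith
      have h5 := norm_nonneg (⟨T / 2, t / 2⟩ : ℂ)
      nlinarith
    · rw [hD1]
      apply Complex.ext
      · simp [sq, Complex.mul_re]
        nlinarith
      · simp [sq, Complex.mul_im]
        ring
  obtain ⟨A, B, C, hcore⟩ := core T D h1 h2 h3
  by_cases hq0 : q = 0
  · by_cases hr0 : r = 0
    · -- diagonal matrix
      have hfac1 : 1 - T + D = (1 - p) * (1 - s) := by rw [hT, hD, hr0]; ring
      have hfac2 : 1 + T + D = (1 + p) * (1 + s) := by rw [hT, hD, hr0]; ring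
      rw [hfac1] at h1
      rw [hfac2] at h2
      have hp1 : p ^ 2 - 1 ≠ 0 := by
        have : p ^ 2 - 1 = -((1 - p) * (1 + p)) := by ring
        rw [this]
        exact neg_ne_zero.2 (mul_ne_zero (left_ne_zero_of_mul h1) (left_ne_zero_of_mul h2))
      have hs1 : s ^ 2 - 1 ≠ 0 := by
        have : s ^ 2 - 1 = -((1 - s) * (1 + s)) := by ring
        rw [this]
        exact neg_ne_zero.2 (mul_ne_zero (right_ne_zero_of_mul h1) (right_ne_zero_of_mul h2))
      refine ⟨p ^ 2 - 1, 0, s ^ 2 - 1, fun v hv => ?_⟩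
      rw [hL v, hq0, hr0]
      simp only [quad]
      have hv' : v.1 ≠ 0 ∨ v.2 ≠ 0 := by
        by_contra hcon
        push Not at hcon
        exact hv (Prod.ext hcon.1 hcon.2)
      have hA : 0 ≤ ((p ^ 2 - 1) * v.1) ^ 2 := sq_nonneg _
      have hB : 0 ≤ ((s ^ 2 - 1) * v.2) ^ 2 := sq_nonneg _
      have hAB : 0 < ((p ^ 2 - 1) * v.1) ^ 2 + ((s ^ 2 - 1) * v.2) ^ 2 := by
        rcases hv' with h5 | h5
        · have := pow_pos (abs_pos.2 (mul_ne_zero hp1 h5)) 2
          rw [sq_abs] at this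
          linarith
        · have := pow_pos (abs_pos.2 (mul_ne_zero hs1 h5)) 2
          rw [sq_abs] at this
          linarith
      nlinarith
    · refine ⟨C * r ^ 2, B * r + 2 * C * r * s, A + B * s + C * s ^ 2, fun v hv => ?_⟩
      have hxy : v.2 ≠ 0 ∨ r * v.1 + s * v.2 ≠ 0 := by
        by_contra hcon
        push Not at hcon
        have h5 : r * v.1 = 0 := by have := hcon.2; rw [hcon.1] at this; linarith
        rcases mul_eq_zero.1 h5 with h6 | h6
        · exact hr0 h6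
        · exact hv (Prod.ext h6 hcon.1)
      have h6 := hcore v.2 (r * v.1 + s * v.2) hxy
      rw [hL v]
      simp only [quad]
      rw [hT, hD] at h6
      calc C * r ^ 2 * v.1 ^ 2 + (B * r + 2 * C * r * s) * (v.1 * v.2) + (A + B * s + C * s ^ 2) * v.2 ^ 2
          = A * v.2 ^ 2 + B * (v.2 * (r * v.1 + s * v.2)) + C * (r * v.1 + s * v.2) ^ 2 := by ring
        _ < _ := h6
        _ = _ := by ring
  · refine ⟨A + B * p + C * p ^ 2, B * q + 2 * C * p * q, C * q ^ 2, fun v hv => ?_⟩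
    have hxy : v.1 ≠ 0 ∨ p * v.1 + q * v.2 ≠ 0 := by
      by_contra hcon
      push Not at hcon
      have h5 : q * v.2 = 0 := by have := hcon.2; rw [hcon.1] at this; linarith
      rcases mul_eq_zero.1 h5 with h6 | h6
      · exact hq0 h6
      · exact hv (Prod.ext hcon.1 h6)
    have h6 := hcore v.1 (p * v.1 + q * v.2) hxy
    rw [hL v]
    simp only [quad]
    rw [hT, hD] at h6
    calc (A + B * p + C * p ^ 2) * v.1 ^ 2 + (B * q + 2 * C * p * q) * (v.1 * v.2) + C * q ^ 2 * v.2 ^ 2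
        = A * v.1 ^ 2 + B * (v.1 * (p * v.1 + q * v.2)) + C * (p * v.1 + q * v.2) ^ 2 := by ring
      _ < _ := h6
      _ = _ := by ring

theorem Hyperbolic.quadHyp {f : ℝ × ℝ → ℝ × ℝ} {z : ℝ × ℝ} (h : Hyperbolic f z) : QuadHyp f z := by
  obtain ⟨k, hk, hz, hw⟩ := h
  exact ⟨k, hk, hz, exists_quad _ hw⟩

theorem henon_contDiff (a b : ℝ) : ContDiff ℝ 1 (henon a b) := by
  unfold henon
  fun_prop

theorem henon_iter_contDiff (a b : ℝ) (k : ℕ) : ContDiff ℝ 1 (henon a b)^[k] := by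
  induction k with
  | zero => exact contDiff_id
  | succ k ih =>
    rw [Function.iterate_succ']
    exact (henon_contDiff a b).comp ih

theorem henon_injective (a b : ℝ) (hb : b ≠ 0) : Function.Injective (henon a b) := by
  intro z w h
  unfold henon at h
  rw [Prod.mk.injEq] at h
  have h2 := h.2
  have h1 := h.1
  rw [h2] at h1
  have h3 : b * z.2 = b * w.2 := by linarith
  exact Prod.ext h2 (mul_left_cancel₀ hb h3)

/-- Periodic points are bounded. -/
theorem bounded (a b : ℝ) (z : ℝ × ℝ) (hz : z ∈ P (henon a b)) :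
    |z.1| ≤ 1 + |a| + |b| ∧ |z.2| ≤ 1 + |a| + |b| := by
  obtain ⟨k, hk, hz⟩ := hz
  set f := henon a b with hf
  -- x i = first coordinate of the i-th iterate
  set x : ℕ → ℝ := fun i => (f^[i] z).1 with hx
  have hper : ∀ i, f^[i + k] z = f^[i] z := by
    intro i
    rw [Function.iterate_add_apply, hz]
  have hrec : ∀ i, x (i + 2) = a - x (i + 1) ^ 2 - b * x i := by
    intro i
    simp only [hx]
    rw [Function.iterate_succ_apply', hf]
    simp only [henon]
    rw [Function.iterate_succ_apply' (henon a b) i z]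
    simp [henon]
  obtain ⟨m, hm, hmax⟩ := Finset.exists_max_image (Finset.range k) (fun i => |x i|) ⟨0, by simp; omega⟩
  have hmax' : ∀ i, |x i| ≤ |x m| := by
    intro i
    have h1 : x i = x (i % k) := by
      simp only [hx]
      have : f^[i] z = f^[i % k] z := by
        conv_lhs => rw [← Nat.mod_add_div i k]
        rw [Function.iterate_add_apply, Function.iterate_mul]
        congr 1
        exact Function.iterate_fixed hz _
      rw [this]
    rw [h1]
    exact hmax _ (Finset.mem_range.2 (Nat.mod_lt _ (by omega)))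
  have hkey : |x m| ≤ 1 + |a| + |b| := by
    have h1 := hrec (m + k - 1)
    have e1 : m + k - 1 + 1 = m + k := by omega
    have e2 : m + k - 1 + 2 = m + k + 1 := by omega
    rw [e1, e2] at h1
    have h2 : x (m + k) = x m := by simp only [hx]; rw [hper]
    rw [h2] at h1
    have h3 := hmax' (m + k + 1)
    have h4 := hmax' (m + k - 1)
    by_contra hcon
    push Not at hcon
    have ha := abs_nonneg a
    have hb := abs_nonneg b
    have h5 : |x m| ^ 2 = a - x (m + k + 1) - b * x (m + k - 1) := by rw [sq_abs]; linarith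
    have h6 : a ≤ |a| := le_abs_self a
    have h7 : - x (m + k + 1) ≤ |x m| := le_trans (neg_le_abs _) h3
    have h8 : - (b * x (m + k - 1)) ≤ |b| * |x m| := by
      refine le_trans (neg_le_abs _) ?_
      rw [abs_mul]
      exact mul_le_mul_of_nonneg_left h4 hb
    nlinarith
  refine ⟨?_, ?_⟩
  · have := hmax' 0
    simp only [hx, Function.iterate_zero, id] at this
    exact le_trans this hkey
  · have h1 : z.2 = x (k - 1) := by
      simp only [hx]
      have h2 : f (f^[k - 1] z) = z := by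
        rw [← Function.iterate_succ_apply' f (k - 1) z]
        have : (k - 1).succ = k := by omega
        rw [this, hz]
      have h3 := congrArg Prod.snd h2
      rw [← h3, hf]
      simp [henon]
    rw [h1]
    exact le_trans (hmax' _) hkey

theorem P_bounded (a b : ℝ) : P (henon a b) ⊆ Icc (-(1 + |a| + |b|)) (1 + |a| + |b|) ×ˢ
    Icc (-(1 + |a| + |b|)) (1 + |a| + |b|) := by
  intro z hz
  have h := bounded a b z hz
  exact ⟨abs_le.1 h.1, abs_le.1 h.2⟩


theorem quad_smul (α β γ r : ℝ) (v : ℝ × ℝ) : quad α β γ (r • v) = r ^ 2 * quad α β γ v := by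
  simp only [quad, Prod.smul_fst, Prod.smul_snd, smul_eq_mul]
  ring

theorem quad_diff (α β γ : ℝ) (u e : ℝ × ℝ) :
    |quad α β γ (u + e) - quad α β γ u| ≤ (|α| + |β| + |γ|) * (2 * ‖u‖ * ‖e‖ + ‖e‖ ^ 2) := by
  have hu1 : |u.1| ≤ ‖u‖ := norm_fst_le u
  have hu2 : |u.2| ≤ ‖u‖ := norm_snd_le u
  have he1 : |e.1| ≤ ‖e‖ := norm_fst_le e
  have he2 : |e.2| ≤ ‖e‖ := norm_snd_le e
  have hU := norm_nonneg u
  have hE := norm_nonneg e
  have h : quad α β γ (u + e) - quad α β γ u = α * (2 * (u.1 * e.1) + e.1 * e.1) +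
      β * (u.1 * e.2 + e.1 * u.2 + e.1 * e.2) + γ * (2 * (u.2 * e.2) + e.2 * e.2) := by
    simp only [quad, Prod.fst_add, Prod.snd_add]
    ring
  have m11 : |u.1 * e.1| ≤ ‖u‖ * ‖e‖ := by
    rw [abs_mul]; exact mul_le_mul hu1 he1 (abs_nonneg _) hU
  have m12 : |u.1 * e.2| ≤ ‖u‖ * ‖e‖ := by
    rw [abs_mul]; exact mul_le_mul hu1 he2 (abs_nonneg _) hU
  have m21 : |e.1 * u.2| ≤ ‖u‖ * ‖e‖ := by
    rw [abs_mul, mul_comm]; exact mul_le_mul hu2 he1 (abs_nonneg _) hU
  have m22 : |u.2 * e.2| ≤ ‖u‖ * ‖e‖ := by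
    rw [abs_mul]; exact mul_le_mul hu2 he2 (abs_nonneg _) hU
  have e11 : |e.1 * e.1| ≤ ‖e‖ ^ 2 := by
    rw [abs_mul, sq]; exact mul_le_mul he1 he1 (abs_nonneg _) hE
  have e12 : |e.1 * e.2| ≤ ‖e‖ ^ 2 := by
    rw [abs_mul, sq]; exact mul_le_mul he1 he2 (abs_nonneg _) hE
  have e22 : |e.2 * e.2| ≤ ‖e‖ ^ 2 := by
    rw [abs_mul, sq]; exact mul_le_mul he2 he2 (abs_nonneg _) hE
  set T := 2 * ‖u‖ * ‖e‖ + ‖e‖ ^ 2 with hT
  have a1 : |2 * (u.1 * e.1) + e.1 * e.1| ≤ T := by
    have := abs_le.1 m11; have := abs_le.1 e11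
    rw [abs_le]; constructor <;> nlinarith
  have a2 : |u.1 * e.2 + e.1 * u.2 + e.1 * e.2| ≤ T := by
    have := abs_le.1 m12; have := abs_le.1 m21; have := abs_le.1 e12
    rw [abs_le]; constructor <;> nlinarith
  have a3 : |2 * (u.2 * e.2) + e.2 * e.2| ≤ T := by
    have := abs_le.1 m22; have := abs_le.1 e22
    rw [abs_le]; constructor <;> nlinarith
  rw [h]
  refine (abs_add_le _ _).trans ?_
  have b1 := abs_add_le (α * (2 * (u.1 * e.1) + e.1 * e.1)) (β * (u.1 * e.2 + e.1 * u.2 + e.1 * e.2))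
  rw [abs_mul, abs_mul] at b1
  rw [abs_mul γ]
  have c1 := mul_le_mul_of_nonneg_left a1 (abs_nonneg α)
  have c2 := mul_le_mul_of_nonneg_left a2 (abs_nonneg β)
  have c3 := mul_le_mul_of_nonneg_left a3 (abs_nonneg γ)
  linarith

/-- The quadratic form is a strict Lyapunov function of `g` near a hyperbolic fixed point. -/
theorem lyap {g : ℝ × ℝ → ℝ × ℝ} {z : ℝ × ℝ} (hg : ContDiff ℝ 1 g) (hz : g z = z) {α β γ : ℝ}
    (hQ : ∀ v : ℝ × ℝ, v ≠ 0 → quad α β γ v < quad α β γ (fderiv ℝ g z v)) :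
    ∃ ε : ℝ, 0 < ε ∧ ∀ w, w ≠ z → w ∈ Metric.closedBall z ε →
      quad α β γ (w - z) < quad α β γ (g w - z) := by
  set L := fderiv ℝ g z with hL
  have hcont : Continuous fun v : ℝ × ℝ => quad α β γ (L v) - quad α β γ v := by
    unfold quad
    fun_prop
  obtain ⟨v₀, hv₀, hmin⟩ := (isCompact_sphere (0 : ℝ × ℝ) 1).exists_isMinOn
    (NormedSpace.sphere_nonempty.2 zero_le_one) hcont.continuousOn
  set c := quad α β γ (L v₀) - quad α β γ v₀ with hc
  have hv₀' : ‖v₀‖ = 1 := by simpa using hv₀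
  have hc0 : 0 < c := by
    have : v₀ ≠ 0 := by
      intro h
      rw [h, norm_zero] at hv₀'
      exact zero_ne_one hv₀'
    have := hQ v₀ this
    rw [hc]; linarith
  have hlow : ∀ v : ℝ × ℝ, c * ‖v‖ ^ 2 ≤ quad α β γ (L v) - quad α β γ v := by
    intro v
    by_cases hv : v = 0
    · subst hv
      simp [quad]
    have hn : ‖v‖ ≠ 0 := norm_ne_zero_iff.2 hv
    have h1 : ‖v‖⁻¹ • v ∈ Metric.sphere (0 : ℝ × ℝ) 1 := by
      rw [mem_sphere_zero_iff_norm, norm_smul, norm_inv, norm_norm, inv_mul_cancel₀ hn]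
    have h2 := hmin h1
    simp only [Set.mem_ofPred_eq] at h2
    rw [map_smul, quad_smul, quad_smul] at h2
    have h3 : c ≤ (‖v‖⁻¹) ^ 2 * (quad α β γ (L v) - quad α β γ v) := by
      rw [hc]; linarith
    have h4 : 0 < ‖v‖ ^ 2 := by positivity
    have h5 := mul_le_mul_of_nonneg_right h3 h4.le
    have h6 : (‖v‖⁻¹) ^ 2 * (quad α β γ (L v) - quad α β γ v) * ‖v‖ ^ 2 =
        quad α β γ (L v) - quad α β γ v := by
      field_simp
    linarith
  set M := |α| + |β| + |γ| with hM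
  have hM0 : 0 ≤ M := by positivity
  set A := ‖L‖ with hA
  have hA0 : 0 ≤ A := norm_nonneg _
  set δ := min 1 (c / (2 * (M + 1) * (2 * A + 1))) with hδ
  have hδ0 : 0 < δ := by
    rw [hδ]
    exact lt_min one_pos (by positivity)
  have hδ1 : δ ≤ 1 := min_le_left _ _
  have hδ2 : δ * (2 * (M + 1) * (2 * A + 1)) ≤ c := by
    have : δ ≤ c / (2 * (M + 1) * (2 * A + 1)) := min_le_right _ _
    rwa [le_div_iff₀ (by positivity)] at this
  have hder : HasFDerivAt g L z := (hg.differentiable one_ne_zero z).hasFDerivAt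
  have ho := (hasFDerivAt_iff_isLittleO.1 hder).def hδ0
  obtain ⟨ε, hε, hball⟩ := Metric.nhds_basis_closedBall.eventually_iff.1 ho
  refine ⟨ε, hε, fun w hw hwb => ?_⟩
  have h1 := hball hwb
  rw [hz] at h1
  set v := w - z with hv
  set e := g w - z - L v with he
  have hv0 : 0 < ‖v‖ := norm_pos_iff.2 (sub_ne_zero.2 hw)
  have h2 : g w - z = L v + e := by rw [he]; abel
  have h3 := (abs_le.1 (quad_diff α β γ (L v) e)).1
  rw [← h2] at h3
  have h4 := hlow v
  have h5 : ‖L v‖ ≤ A * ‖v‖ := L.le_opNorm v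
  have h6 : 2 * ‖L v‖ * ‖e‖ + ‖e‖ ^ 2 ≤ δ * (2 * A + 1) * ‖v‖ ^ 2 := by
    have i1 : ‖L v‖ * ‖e‖ ≤ (A * ‖v‖) * (δ * ‖v‖) :=
      mul_le_mul h5 h1 (norm_nonneg _) (by positivity)
    have i2 : ‖e‖ ^ 2 ≤ (δ * ‖v‖) ^ 2 := by
      exact pow_le_pow_left₀ (norm_nonneg _) h1 2
    have i3 : (δ * ‖v‖) ^ 2 ≤ δ * ‖v‖ ^ 2 := by
      have : δ ^ 2 ≤ δ := by nlinarith
      nlinarith [sq_nonneg ‖v‖]
    nlinarith
  have h7 : M * (2 * ‖L v‖ * ‖e‖ + ‖e‖ ^ 2) ≤ c / 2 * ‖v‖ ^ 2 := by
    have i0 : 0 ≤ δ * (2 * A + 1) := by positivity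
    have i1 : M * (δ * (2 * A + 1)) ≤ c / 2 := by nlinarith
    calc M * (2 * ‖L v‖ * ‖e‖ + ‖e‖ ^ 2) ≤ M * (δ * (2 * A + 1) * ‖v‖ ^ 2) :=
          mul_le_mul_of_nonneg_left h6 hM0
      _ = M * (δ * (2 * A + 1)) * ‖v‖ ^ 2 := by ring
      _ ≤ c / 2 * ‖v‖ ^ 2 := mul_le_mul_of_nonneg_right i1 (sq_nonneg _)
  have h8 : 0 < c * ‖v‖ ^ 2 := by positivity
  linarith

theorem iter_iter (f : ℝ × ℝ → ℝ × ℝ) (k i : ℕ) (w : ℝ × ℝ) : (f^[k])^[i] w = f^[k * i] w := by
  rw [Function.iterate_mul]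

/-- A periodic orbit near a hyperbolic fixed point of `g` is this fixed point. -/
theorem orbit_eq {g : ℝ × ℝ → ℝ × ℝ} {z : ℝ × ℝ} (hz : g z = z) {α β γ ε : ℝ}
    (hV : ∀ w, w ≠ z → w ∈ Metric.closedBall z ε → quad α β γ (w - z) < quad α β γ (g w - z))
    {y : ℝ × ℝ} {m : ℕ} (hm : 1 ≤ m) (hy : g^[m] y = y)
    (hin : ∀ i, g^[i] y ∈ Metric.closedBall z ε) : y = z := by
  by_contra hne
  have hne' : ∀ i, g^[i] y ≠ z := by
    intro i hi
    have h1 : ∀ j, g^[j] z = z := fun j => Function.iterate_fixed hz j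
    have h2 : g^[m * i] y = y := by
      rw [Function.iterate_mul]; exact Function.iterate_fixed hy i
    obtain ⟨s, hs⟩ : ∃ s, m * i = s + i := ⟨m * i - i, by
      have : i ≤ m * i := Nat.le_mul_of_pos_left i (by omega)
      omega⟩
    rw [hs, Function.iterate_add_apply, hi, h1] at h2
    exact hne h2.symm
  have hmono : StrictMono fun i => quad α β γ (g^[i] y - z) := by
    refine strictMono_nat_of_lt_succ fun i => ?_
    have := hV _ (hne' i) (hin i)
    rwa [← Function.iterate_succ_apply' g i y] at this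
  have := hmono (show 0 < m by omega)
  simp only [Function.iterate_zero, id, hy, lt_self_iff_false] at this

theorem not_accPt {f : ℝ × ℝ → ℝ × ℝ} (hf : ∀ k, ContDiff ℝ 1 f^[k]) (hP : IsCompact (P f))
    {z : ℝ × ℝ} (hz : QuadHyp f z) : ¬ AccPt z (𝓟 (P f)) := by
  intro hacc
  obtain ⟨k, hk, hkz, α, β, γ, hQ⟩ := hz
  set g := f^[k] with hg
  obtain ⟨ε, hε, hV⟩ := lyap (hf k) hkz hQ
  have hgc : Continuous g := (hf k).continuous
  have hgi : ∀ i, Continuous g^[i] := fun i => hgc.iterate i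
  have hPi : ∀ i w, w ∈ P f → g^[i] w ∈ P f := by
    rintro i w ⟨s, hs, hw⟩
    refine ⟨s, hs, ?_⟩
    rw [hg, iter_iter, ← Function.iterate_add_apply, add_comm, Function.iterate_add_apply, hw]
  have hPg : ∀ w, w ∈ P f → ∃ m, 1 ≤ m ∧ g^[m] w = w := by
    rintro w ⟨s, hs, hw⟩
    refine ⟨s, hs, ?_⟩
    rw [hg, iter_iter, mul_comm, Function.iterate_mul]
    exact Function.iterate_fixed hw k
  set K := P f ∩ Metric.closedBall z ε with hK
  have hKc : IsCompact K := hP.inter_right Metric.isClosed_closedBall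
  set E : ℕ → Set (ℝ × ℝ) := fun N => (P f ∩ {w | ε ≤ dist w z}) ∩ ⋂ i ∈ Finset.Icc 1 N, g^[i] '' K
    with hE
  have hEc : ∀ N, IsClosed (E N) := by
    intro N
    refine (hP.isClosed.inter (isClosed_le continuous_const (continuous_id.dist continuous_const))).inter ?_
    exact isClosed_biInter fun i _ => (hKc.image (hgi i)).isClosed
  have hE0 : IsCompact (E 0) :=
    (hP.inter_right (isClosed_le continuous_const (continuous_id.dist continuous_const))).inter_right
      (isClosed_biInter fun i _ => (hKc.image (hgi i)).isClosed)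
  have hEanti : ∀ N, E (N + 1) ⊆ E N := by
    intro N w hw
    refine ⟨hw.1, ?_⟩
    have h2 := hw.2
    simp only [Set.mem_iInter] at h2 ⊢
    intro i hi
    exact h2 i (Finset.Icc_subset_Icc_right (Nat.le_succ N) hi)
  have hEne : ∀ N, (E N).Nonempty := by
    intro N
    have hnb : (⋂ i ∈ Finset.range (N + 1), g^[i] ⁻¹' Metric.ball z ε) ∈ 𝓝 z := by
      rw [Filter.biInter_finset_mem]
      intro i _
      apply (hgi i).continuousAt.preimage_mem_nhds
      rw [Function.iterate_fixed hkz i]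
      exact Metric.ball_mem_nhds z hε
    obtain ⟨q, ⟨hq1, hqP⟩, hqz⟩ := accPt_iff_nhds.1 hacc _ hnb
    obtain ⟨m, hm, hqm⟩ := hPg q hqP
    have hex : ∃ n, g^[n] q ∉ Metric.closedBall z ε := by
      by_contra hcon
      push Not at hcon
      exact hqz (orbit_eq hkz hV hm hqm hcon)
    classical
    set n := Nat.find hex with hn
    have hn1 : g^[n] q ∉ Metric.closedBall z ε := Nat.find_spec hex
    have hn2 : ∀ i < n, g^[i] q ∈ Metric.closedBall z ε := fun i hi => not_not.1 (Nat.find_min hex hi)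
    have hnN : N < n := by
      by_contra hcon
      push Not at hcon
      have h1 : q ∈ g^[n] ⁻¹' Metric.ball z ε := by
        have h2 := hq1
        simp only [Set.mem_iInter] at h2
        exact h2 n (Finset.mem_range.2 (by omega))
      exact hn1 (Metric.ball_subset_closedBall h1)
    refine ⟨g^[n] q, ⟨hPi n q hqP, ?_⟩, ?_⟩
    · have : ¬ dist (g^[n] q) z ≤ ε := hn1
      exact (not_le.1 this).le
    · simp only [Set.mem_iInter]
      intro i hi
      have hi' := Finset.mem_Icc.1 hi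
      refine ⟨g^[n - i] q, ⟨hPi _ q hqP, hn2 _ (by omega)⟩, ?_⟩
      rw [← Function.iterate_add_apply]
      congr 2
      omega
  obtain ⟨y, hy⟩ := IsCompact.nonempty_iInter_of_sequence_nonempty_isCompact_isClosed E hEanti hEne
    hE0 hEc
  have hyN : ∀ N, y ∈ E N := fun N => Set.mem_iInter.1 hy N
  have hyP : y ∈ P f := (hyN 0).1.1
  have hyd : ε ≤ dist y z := (hyN 0).1.2
  have hlift : ∀ i, 1 ≤ i → ∃ u ∈ K, g^[i] u = y := by
    intro i hi
    have h2 := (hyN i).2
    simp only [Set.mem_iInter] at h2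
    exact h2 i (Finset.mem_Icc.2 ⟨hi, le_rfl⟩)
  obtain ⟨m, hm, hym⟩ := hPg y hyP
  have hall : ∀ i, g^[i] y ∈ Metric.closedBall z ε := by
    intro i
    have h0 : i < m * (i + 1) := by
      calc i < i + 1 := Nat.lt_succ_self i
        _ ≤ m * (i + 1) := Nat.le_mul_of_pos_left _ (by omega)
    obtain ⟨u, huK, hu⟩ := hlift (m * (i + 1) - i) (by omega)
    set i' := m * (i + 1) - i with hi'
    obtain ⟨T, hT, huT⟩ := hPg u huK.1
    have h1 : g^[T * i'] u = u := by
      rw [Function.iterate_mul]; exact Function.iterate_fixed huT i'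
    obtain ⟨s, hs⟩ : ∃ s, T * i' = s + i' := ⟨T * i' - i', by
      have : i' ≤ T * i' := Nat.le_mul_of_pos_left _ (by omega)
      omega⟩
    have h2 : g^[s] y = u := by
      rw [← hu, ← Function.iterate_add_apply, ← hs, h1]
    have h3 : g^[m] u = u := by
      rw [← h2, ← Function.iterate_add_apply, add_comm, Function.iterate_add_apply, hym]
    have h4 : g^[i] y = u := by
      rw [← hu, ← Function.iterate_add_apply]
      have : i + i' = m * (i + 1) := by omega
      rw [this, Function.iterate_mul]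
      exact Function.iterate_fixed h3 _
    rw [h4]
    exact huK.2
  have hyz : y = z := orbit_eq hkz hV hm hym hall
  rw [hyz, dist_self] at hyd
  linarith

/-- If the set `P` of the periodic points of the Hénon map `H_{a,b}` is closed, then no hyperbolic periodic point of
`H_{a,b}` is a limit of other periodic points; hence `P` is finite, or some periodic point which is not hyperbolic is a
limit of other periodic points. -/
theorem result (a b : ℝ) (hP : IsClosed (P (henon a b))) :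
    (∀ z, Hyperbolic (henon a b) z → ¬ AccPt z (𝓟 (P (henon a b)))) ∧
    ((P (henon a b)).Finite ∨
      ∃ z ∈ P (henon a b), ¬ Hyperbolic (henon a b) z ∧ AccPt z (𝓟 (P (henon a b)))) := by
  have hc : IsCompact (P (henon a b)) :=
    (isCompact_Icc.prod isCompact_Icc).of_isClosed_subset hP (P_bounded a b)
  have h1 : ∀ z, Hyperbolic (henon a b) z → ¬ AccPt z (𝓟 (P (henon a b))) := fun z hz =>
    not_accPt (henon_iter_contDiff a b) hc hz.quadHyp
  refine ⟨h1, ?_⟩
  by_cases hfin : (P (henon a b)).Finite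
  · exact Or.inl hfin
  · obtain ⟨z, hz, hacc⟩ := Set.Infinite.exists_accPt_of_subset_isCompact hfin hc subset_rfl
    exact Or.inr ⟨z, hz, fun h => h1 z h hacc, hacc⟩

end Pool.Agent.Results.MP_a4e28a_an.HyperbolicIsolated
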